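import Pool.Agent.Lib.MP_086785_gt.CB.Final

/-!
# A twisted prim map whose Morin and corank loci are not cobordant (`MP_086785_gt`, Q1)

The statement asked about in Q1 (in its unoriented part) is false: for `r = 3`, `k = 2`, `n = 9`,
`d = 0`, and for every notion of genericity given by dense classes of maps.

The example. For `y` in `ℝ^11`, written `(z₃, r, c₀, z₁, c₂, z₂)` in `ℂ × ℝ × ℂ^4`, and
`v = (v₀, v')` in `ℝ × ℂ` put
`s = c₀ v₀³ + z₁ v' v₀² + c₂ v₀ |v'|² + z₂ v' |v'|²` and
`s₃ = r (v₀³ - v₀ |v'|²) + Re (z₃ v') v₀² + Im (z₃ v') |v'|²`.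
`M` is the set of all `([y], [u], [v])` in `ℝP^10 × ℝP^1 × ℝP^2` (lines are represented by the
matrices `y yᵀ`, `u uᵀ`, `v vᵀ`) with `v'` in `ℝ u` and `s = 0`, `s₃ = 0`: an `ℝP^7`-bundle over a
Klein bottle. `N = ℝP^10 × ℝP^1`, and `f₀` is the projection. On the plane `ℝ ⊕ ℝ u` the three
forms `Re s`, `Im s`, `s₃` are binary cubics which determine `y`, so they have no common zero of
multiplicity four: `f₀` and all maps close to it have no points of type `Σ^{1,1,1}`. The kernels of
`df₀` are isomorphic to the tautological bundle over `ℝP^1`. There is a map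
`f' : M × ℝ² → N`, arbitrarily close to the projection composed with a map close to `f₀`, with
exactly one point of type `Σ³` in `M × {0}`, and the same is true for all maps near `f'`. One point
is not cobordant to the empty set.
-/

set_option autoImplicit false

namespace Pool.Agent.Results.MP_086785_gt.TwistedPrimCounterexample

open Pool.Agent.Lib.MP_086785_gt

/-- For every notion of genericity, the cobordism statement of Q1 is false. -/
theorem result : ∀ G : Genericity, ¬ Q1 G := CB.fStMain

end Pool.Agent.Results.MP_086785_gt.TwistedPrimCounterexample
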